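import Pool.Agent.Results.MP_19f0f5_gt.AllDimensionsAllPoints

/-!
# No two points determine planar convex bodies: `3 ≤ N`

For all distinct points `x₁`, `x₂` of the plane there are two different convex bodies with the same
chord function at `x₁` and the same chord function at `x₂`. So two point sources never suffice, and
the least number `N` of the question is at least three (and at most four, by Volčič).
-/

set_option autoImplicit false

open Set

namespace Pool.Agent.Results.MP_e55421_gt.AtLeastThree

/-- The Euclidean plane. -/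
abbrev Plane : Type := EuclideanSpace ℝ (Fin 2)

/-- The unit vector at the angle `θ` with the axis. -/
noncomputable def direction (θ : ℝ) : Plane := !₂[Real.cos θ, Real.sin θ]

/-- The chord function: the length (diameter) of the intersection of `K` with the line through `x`
at the angle `θ`; it is `0` if the intersection is empty. -/
noncomputable def chordFunction (K : Set Plane) (x : Plane) (θ : ℝ) : ℝ :=
  Metric.diam (K ∩ {p | ∃ t : ℝ, p = x + t • direction θ})

/-- A convex body: a compact convex set with nonempty interior. -/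
def IsConvexBody (K : Set Plane) : Prop :=
  Convex ℝ K ∧ IsCompact K ∧ (interior K).Nonempty

/-- The set `P` determines convex bodies: two convex bodies with the same chord function at every
point of `P` are equal. -/
def Determines (P : Set Plane) : Prop :=
  ∀ K L : Set Plane, IsConvexBody K → IsConvexBody L →
    (∀ x ∈ P, ∀ θ ∈ Ico (0 : ℝ) Real.pi, chordFunction K x θ = chordFunction L x θ) → K = L

/-- No three distinct points of `P` lie on a line. -/
def NoThreeCollinear (P : Set Plane) : Prop :=
  ∀ x ∈ P, ∀ y ∈ P, ∀ z ∈ P, x ≠ y → x ≠ z → y ≠ z → ¬ Collinear ℝ {x, y, z}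

/-- Every set of `k` points of the plane, no three of them collinear, determines convex bodies. The
number `N` of the question is the least `k ≥ 1` with this property. -/
def Works (k : ℕ) : Prop :=
  ∀ P : Finset Plane, P.card = k → NoThreeCollinear P → Determines P

/-- For all distinct points `x₁`, `x₂` and every `t > 0` there are two different convex bodies with
the same chord function at `x₁` and the same chord function at `x₂`; both avoid the two points, their
interiors meet the line through the two points and they lie within distance `t` of this line. So no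
set of at most two points determines convex bodies, and every `k` such that all sets of `k` points,
no three of them collinear, determine convex bodies, is at least three. -/
theorem result :
    (∀ x₁ x₂ : Plane, x₁ ≠ x₂ → ∀ t : ℝ, 0 < t → ∃ K L : Set Plane,
      IsConvexBody K ∧ IsConvexBody L ∧ K ≠ L ∧
      (∀ θ : ℝ, chordFunction K x₁ θ = chordFunction L x₁ θ) ∧
      (∀ θ : ℝ, chordFunction K x₂ θ = chordFunction L x₂ θ) ∧
      x₁ ∉ K ∪ L ∧ x₂ ∉ K ∪ L ∧
      ((line[ℝ, x₁, x₂] : Set Plane) ∩ interior K).Nonempty ∧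
      ((line[ℝ, x₁, x₂] : Set Plane) ∩ interior L).Nonempty ∧
      ∀ p ∈ K ∪ L, ∃ q ∈ line[ℝ, x₁, x₂], dist p q ≤ t) ∧
    (∀ x₁ x₂ : Plane, ¬ Determines {x₁, x₂}) ∧
    ∀ k : ℕ, Works k → 3 ≤ k := by
  have hdim : 2 ≤ Module.finrank ℝ Plane := by simp
  have h1 : ∀ x₁ x₂ : Plane, x₁ ≠ x₂ → ∀ t : ℝ, 0 < t → ∃ K L : Set Plane,
      IsConvexBody K ∧ IsConvexBody L ∧ K ≠ L ∧
      (∀ θ : ℝ, chordFunction K x₁ θ = chordFunction L x₁ θ) ∧
      (∀ θ : ℝ, chordFunction K x₂ θ = chordFunction L x₂ θ) ∧
      x₁ ∉ K ∪ L ∧ x₂ ∉ K ∪ L ∧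
      ((line[ℝ, x₁, x₂] : Set Plane) ∩ interior K).Nonempty ∧
      ((line[ℝ, x₁, x₂] : Set Plane) ∩ interior L).Nonempty ∧
      ∀ p ∈ K ∪ L, ∃ q ∈ line[ℝ, x₁, x₂], dist p q ≤ t := by
    intro x₁ x₂ hx t ht
    obtain ⟨K, L, -, -, h⟩ :=
      Pool.Agent.Results.MP_19f0f5_gt.AllDimensionsAllPoints.result Plane hdim x₁ x₂ hx
    obtain ⟨⟨hK1, hK2, hK3, hK4, hK5⟩, ⟨hL1, hL2, hL3, hL4, hL5⟩, hne, hc1, hc2, hd⟩ := h t ht
    exact ⟨K t, L t, ⟨hK1, hK2, hK5.mono inter_subset_right⟩,
      ⟨hL1, hL2, hL5.mono inter_subset_right⟩, hne, fun θ => hc1 (direction θ),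
      fun θ => hc2 (direction θ), fun h => h.elim hK3 hL3, fun h => h.elim hK4 hL4, hK5, hL5, hd⟩
  have hpair : ∀ x₁ x₂ : Plane, x₁ ≠ x₂ → ¬ Determines {x₁, x₂} := by
    intro x₁ x₂ hx hdet
    obtain ⟨K, L, hK, hL, hne, hc1, hc2, -⟩ := h1 x₁ x₂ hx 1 one_pos
    refine hne (hdet K L hK hL ?_)
    rintro x (rfl | hx') θ -
    · exact hc1 θ
    · rw [mem_singleton_iff] at hx'
      subst hx'
      exact hc2 θ
  have hmono : ∀ P Q : Set Plane, P ⊆ Q → Determines P → Determines Q :=
    fun P Q hPQ hP K L hK hL h => hP K L hK hL fun x hx => h x (hPQ hx)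
  have hone : ∀ x : Plane, ∃ y : Plane, x ≠ y := fun x => by
    obtain ⟨y, hy⟩ := exists_ne x
    exact ⟨y, hy.symm⟩
  have h2 : ∀ x₁ x₂ : Plane, ¬ Determines {x₁, x₂} := by
    intro x₁ x₂
    rcases eq_or_ne x₁ x₂ with rfl | hx
    · intro hdet
      obtain ⟨y, hy⟩ := hone x₁
      exact hpair x₁ y hy (hmono _ _ (by intro z hz; simp at hz; simp [hz]) hdet)
    · exact hpair x₁ x₂ hx
  refine ⟨h1, h2, ?_⟩
  intro k hk
  by_contra hlt
  push Not at hlt
  -- a set of `k ≤ 2` points of a two-element set
  set a : Plane := 0 with ha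
  obtain ⟨b, hab⟩ := hone a
  have hcard : ({a, b} : Finset Plane).card = 2 := Finset.card_pair hab
  obtain ⟨P, hP, hPk⟩ := Finset.exists_subset_card_eq (s := ({a, b} : Finset Plane))
    (n := k) (by rw [hcard]; omega)
  have hsub : (P : Set Plane) ⊆ {a, b} := by
    intro z hz
    have := hP hz
    simpa using this
  have hcol : NoThreeCollinear (P : Set Plane) := by
    intro x hx y hy z hz hxy hxz hyz
    have h3 : ({x, y, z} : Finset Plane).card ≤ ({a, b} : Finset Plane).card := by
      apply Finset.card_le_card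
      intro w hw
      simp only [Finset.mem_insert, Finset.mem_singleton] at hw
      rcases hw with rfl | rfl | rfl
      · exact hP hx
      · exact hP hy
      · exact hP hz
    rw [hcard, Finset.card_eq_three.2 ⟨x, y, z, hxy, hxz, hyz, rfl⟩] at h3
    omega
  exact h2 a b (hmono _ _ hsub (hk P hPk hcol))

end Pool.Agent.Results.MP_e55421_gt.AtLeastThree
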